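import Pool.Agent.Y63.KR.Levels

/-!
# The Knörr–Robinson conjecture splits by rationality levels, and the positive levels hold

Let `G` be a finite group and `p` a prime. For a function `f` of subgroups let

  `A(f) = ∑_σ (-1)^|σ| f(G_σ)`,

where `σ` runs over representatives of the conjugacy classes of chains of nontrivial `p`-subgroups of
`G`, the empty chain included, `|σ|` is the number of members of `σ`, and `G_σ` is the stabiliser.
The Knörr–Robinson conjecture `KRC_p(G)` says that `A(k) = z_p(G)`, where `k` is the number of
conjugacy classes.

An element `x` is `p^a`-rational if it is conjugate to all powers `x^s` with `s` prime to `p`,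
`s ≡ 1` modulo `p^a` and modulo the `p'`-part of the order of `x`. The level of `x` is the least
such `a`. So `k(H)` is the sum over `a ≥ 0` of the number `k_a(H)` of classes of level `a`. (By
Brauer's permutation lemma this is, for `p` odd, also the number of irreducible characters of `H` of
`p`-rationality level `a`.) We prove that `A(k_a) = 0` for all `a ≥ 1` (for `a ≥ 3` if `p = 2`), with
no assumption on `G`. So `KRC_p(G)` says that `A(k_0) = z_p(G)`, which only involves `p`-rational
classes (if `p = 2`, classes of level at most `2`).

More generally, for each `s` the alternating sums of the numbers of classes `C` with `C^s = C` and of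
the numbers of classes of `p`-regular elements with `C^s = C` are equal. (For `s = 1` this is a
theorem of Knörr and Robinson.)

Idea of the proof: count the pairs `(x, y)` with `y x y⁻¹ = x^s`. If `p` divides the order of `x`
then the `p`-part of `x` generates a nontrivial `p`-subgroup of `⟨x, y⟩` which is normalised by `x`
and `y`, and the chains normalised by `x` and `y` cancel.
-/

set_option autoImplicit false

namespace Pool.Agent.Results.MP_b6945b_al.RationalityLevels

open Pool.Agent.Y63.KR Pool.Agent.Y63.AWC

/-- Let `A(f) = ∑_σ (-1)^|σ| f(G_σ)` be the alternating sum over the conjugacy classes of chains of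
nontrivial `p`-subgroups (the empty chain included).

(1) If `f(H)` is the number of classes of elements of `H` of `p`-rationality level exactly `a ≥ 1`
(`a ≥ 3` if `p = 2`) then `A(f) = 0`.

(2) For each `a ≥ 0` (`a ≥ 2` if `p = 2`), the Knörr–Robinson conjecture for `G` at `p` holds if and
only if `A(f) = z_p(G)`, where `f(H)` is the number of classes of `p^a`-rational elements of `H`.

(3) For each `s`, `A` has the same value at the number of classes `C` with `C^s = C` and at the number
of classes `C` of `p`-regular elements with `C^s = C`. -/
theorem result (p : ℕ) [Fact p.Prime] (G : Type) [Group G] [Finite G] :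
    (∀ a : ℕ, 1 ≤ a → (p = 2 → 3 ≤ a) →
      alternatingSum p G (fun H => (numLevel p a H : ℤ)) = 0) ∧
    (∀ a : ℕ, (p = 2 → 2 ≤ a) →
      (KRC p G ↔ alternatingSum p G (fun H => (numRational p a H : ℤ)) = numDefectZero p G)) ∧
    (∀ s : ℕ, alternatingSum p G (fun H => (numFixed s H : ℤ)) =
      alternatingSum p G (fun H => (numFixedRegular p s H : ℤ))) :=
  ⟨sum_level, krc_iff, galois⟩

end Pool.Agent.Results.MP_b6945b_al.RationalityLevels
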